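import Mathlib

set_option autoImplicit false

/-!
# The tree hypergraph `H_k` has no planar realization by axis-parallel rectangles for large `k`

Vertices of the rooted `k`-ary tree `T_k` of depth `k - 1` are the words of length `< k` over the
alphabet `Fin k`; the root is the empty word, the children of `v` are the words `i :: v`, and the
ancestors of `v` (with `v` itself) are the suffixes of `v`.
-/

namespace Pool.Agent.Results.MP_a176d3_co.NoRectRealization

/-- The vertices of the rooted `k`-ary tree `T_k` of depth `k - 1`: words of length at most `k - 1`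
over the alphabet `Fin k`. The length of a word is the level of the vertex. -/
abbrev TreeVertex (k : ℕ) : Type := {v : List (Fin k) // v.length < k}

/-- `w` is a child of `v`: the word `w` is `v` with one more letter (put in front). -/
def IsChild {k : ℕ} (v w : TreeVertex k) : Prop := ∃ i : Fin k, w.1 = i :: v.1

/-- `u` lies on the path from the root to `v` (both ends included): the word `u` is a suffix
of the word `v`. -/
def OnRootPath {k : ℕ} (u v : TreeVertex k) : Prop := u.1 <:+ v.1

/-- A leaf of `T_k`: a vertex at the last level `k - 1`. -/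
def IsLeaf {k : ℕ} (v : TreeVertex k) : Prop := v.1.length + 1 = k

/-- The edges of the hypergraph `H_k = H(T_k)`: for each non-leaf the set of its children, and for
each leaf the set of the vertices on the path from the root to it. -/
def treeHypergraph (k : ℕ) : Set (Set (TreeVertex k)) :=
  {e | (∃ v, ¬ IsLeaf v ∧ e = {w | IsChild v w}) ∨ (∃ v, IsLeaf v ∧ e = {u | OnRootPath u v})}

/-- An (open) axis-parallel rectangle in the plane. -/
def IsAxisRect (R : Set (ℝ × ℝ)) : Prop :=
  ∃ a b c d : ℝ, a < b ∧ c < d ∧ R = Set.Ioo a b ×ˢ Set.Ioo c d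

/-- `(P, S)` is a planar realization of the hypergraph with vertex type `V` and edge set `E`:
some bijection from `V` onto the point set `P` carries the edge set `E` exactly onto the set of
the traces `R ∩ P`, `R ∈ S`. -/
def IsPlanarRealization {V : Type} (E : Set (Set V)) (P : Set (ℝ × ℝ)) (S : Set (Set (ℝ × ℝ))) :
    Prop :=
  ∃ f : V → ℝ × ℝ, Function.Injective f ∧ Set.range f = P ∧
    (fun e : Set V => f '' e) '' E = (fun R => R ∩ P) '' S

/-- The hull property of two coordinate functions: a vertex whose coordinates are in the hull of the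
coordinates of an edge belongs to that edge. -/
def HullProp {k : ℕ} (x y : TreeVertex k → ℝ) : Prop :=
  ∀ e ∈ treeHypergraph k, ∀ v u₁ u₂ u₃ u₄, u₁ ∈ e → u₂ ∈ e → u₃ ∈ e → u₄ ∈ e →
    x u₁ ≤ x v → x v ≤ x u₂ → y u₃ ≤ y v → y v ≤ y u₄ → v ∈ e

lemma HullProp.neg_left {k : ℕ} {x y : TreeVertex k → ℝ} (h : HullProp x y) :
    HullProp (fun v => - x v) y := by
  intro e he v u₁ u₂ u₃ u₄ h1 h2 h3 h4 a b c d
  exact h e he v u₂ u₁ u₃ u₄ h2 h1 h3 h4 (by simpa using b) (by simpa using a) c d

lemma HullProp.neg_right {k : ℕ} {x y : TreeVertex k → ℝ} (h : HullProp x y) :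
    HullProp x (fun v => - y v) := by
  intro e he v u₁ u₂ u₃ u₄ h1 h2 h3 h4 a b c d
  exact h e he v u₁ u₂ u₄ u₃ h1 h2 h4 h3 a b (by simpa using d) (by simpa using c)

lemma hullProp_of_realization {k : ℕ} {f : TreeVertex k → ℝ × ℝ} (hf : Function.Injective f)
    {S : Set (Set (ℝ × ℝ))} (hS : ∀ R ∈ S, IsAxisRect R)
    (hE : (fun e : Set (TreeVertex k) => f '' e) '' treeHypergraph k =
      (fun R => R ∩ Set.range f) '' S) :
    HullProp (fun v => (f v).1) (fun v => (f v).2) := by
  intro e he v u₁ u₂ u₃ u₄ h1 h2 h3 h4 a b c d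
  have hmem : f '' e ∈ (fun R => R ∩ Set.range f) '' S := by
    rw [← hE]
    exact ⟨e, he, rfl⟩
  obtain ⟨R, hR, hRe⟩ := hmem
  obtain ⟨p, q, r, s, -, -, rfl⟩ := hS R hR
  have key : ∀ u, u ∈ e ↔ f u ∈ Set.Ioo p q ×ˢ Set.Ioo r s := by
    intro u
    constructor
    · intro hu
      have : f u ∈ f '' e := ⟨u, hu, rfl⟩
      rw [← hRe] at this
      exact this.1
    · intro hu
      have : f u ∈ f '' e := by
        rw [← hRe]
        exact ⟨hu, u, rfl⟩
      obtain ⟨w, hw, hwu⟩ := this
      rwa [← hf hwu]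
  rw [key] at h1 h2 h3 h4 ⊢
  simp only [Set.mem_prod, Set.mem_Ioo] at h1 h2 h3 h4 ⊢
  refine ⟨⟨?_, ?_⟩, ?_, ?_⟩
  · exact lt_of_lt_of_le h1.1.1 a
  · exact lt_of_le_of_lt b h2.1.2
  · exact lt_of_lt_of_le h3.2.1 c
  · exact lt_of_le_of_lt d h4.2.2

/-- Every vertex has a leaf below it. -/
lemma exists_leaf {k : ℕ} (v : TreeVertex k) : ∃ l : TreeVertex k, IsLeaf l ∧ OnRootPath v l := by
  obtain ⟨v, hv⟩ := v
  have hk : 0 < k := by omega
  refine ⟨⟨List.replicate (k - 1 - v.length) ⟨0, hk⟩ ++ v, ?_⟩, ?_, ?_⟩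
  · simp; omega
  · simp [IsLeaf]; omega
  · simp [OnRootPath]

/-- A sibling of an ancestor of `z` is not in the hull of an ancestor `r` of the siblings
and `z`. -/
lemma not_between {k : ℕ} {x y : TreeVertex k → ℝ} (h : HullProp x y)
    {w : List (Fin k)} {i j : Fin k} (hij : i ≠ j) {r z c : TreeVertex k}
    (hr : r.1 <:+ w) (hz : (j :: w) <:+ z.1) (hc : c.1 = i :: w)
    (h1 : x r ≤ x c) (h2 : x c ≤ x z) (h3 : y r ≤ y c) (h4 : y c ≤ y z) : False := by
  obtain ⟨l, hl, hzl⟩ := exists_leaf z
  have hrl : OnRootPath r l :=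
    hr.trans ((List.suffix_cons j w).trans (hz.trans hzl))
  have := h {u | OnRootPath u l} (Or.inr ⟨l, hl, rfl⟩) c r z r z hrl hzl hrl hzl h1 h2 h3 h4
  have hcl : (i :: w) <:+ l.1 := by
    have h5 : c.1 <:+ l.1 := this
    rwa [hc] at h5
  have hjl : (j :: w) <:+ l.1 := hz.trans hzl
  have h6 : (i :: w) <:+ (j :: w) := List.suffix_of_suffix_length_le hcl hjl (by simp)
  have h7 := h6.eq_of_length (by simp)
  simp at h7
  exact hij h7

/-- `v` lies weakly north-east of `u`. -/
def NE {k : ℕ} (x y : TreeVertex k → ℝ) (u v : TreeVertex k) : Prop := x u ≤ x v ∧ y u ≤ y v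

/-- `v` has a proper descendant weakly north-east of it. -/
def HasNE {k : ℕ} (x y : TreeVertex k → ℝ) (v : TreeVertex k) : Prop :=
  ∃ z : TreeVertex k, v.1 <:+ z.1 ∧ v.1.length < z.1.length ∧ NE x y v z

open Classical in
/-- The exceptional children of `w` with respect to `r`. -/
noncomputable def badSet {k : ℕ} (x y : TreeVertex k → ℝ) (r : TreeVertex k) (w : List (Fin k)) :
    Finset (Fin k) :=
  Finset.univ.filter (fun i => ∃ c : TreeVertex k, c.1 = i :: w ∧ NE x y r c ∧ HasNE x y c)

lemma card_badSet_le {k : ℕ} {x y : TreeVertex k → ℝ} (h : HullProp x y)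
    {r : TreeVertex k} {w : List (Fin k)} (hr : r.1 <:+ w) : (badSet x y r w).card ≤ 2 := by
  classical
  by_contra hcard
  push Not at hcard
  have hlen : w.length + 1 < k := by
    have : (badSet x y r w).Nonempty := by
      rw [← Finset.card_pos]; omega
    obtain ⟨i, hi⟩ := this
    simp only [badSet, Finset.mem_filter, Finset.mem_univ, true_and] at hi
    obtain ⟨c, hc, -, z, hz, hz2, -⟩ := hi
    have h1 := z.2
    have h2 : c.1.length = w.length + 1 := by rw [hc]; simp
    omega
  -- the child with index `i`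
  let ch : Fin k → TreeVertex k := fun i => ⟨i :: w, by simpa using hlen⟩
  have hmem : ∀ i ∈ badSet x y r w, NE x y r (ch i) ∧ HasNE x y (ch i) := by
    intro i hi
    simp only [badSet, Finset.mem_filter, Finset.mem_univ, true_and] at hi
    obtain ⟨c, hc, h1, h2⟩ := hi
    have : c = ch i := Subtype.ext hc
    rw [← this]
    exact ⟨h1, h2⟩
  -- antichain
  have anti : ∀ i ∈ badSet x y r w, ∀ j, i ≠ j → ∀ z : TreeVertex k, (ch j).1 <:+ z.1 →
      ¬ (x (ch i) ≤ x z ∧ y (ch i) ≤ y z) := by
    intro i hi j hij z hz hle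
    obtain ⟨⟨h1, h2⟩, -⟩ := hmem i hi
    exact not_between h hij hr hz (c := ch i) rfl h1 hle.1 h2 hle.2
  have hne : (badSet x y r w).Nonempty := by
    rw [← Finset.card_pos]; omega
  obtain ⟨a, ha, hamin⟩ := Finset.exists_min_image (badSet x y r w) (fun i => x (ch i)) hne
  obtain ⟨b, hb, hbmax⟩ := Finset.exists_max_image (badSet x y r w) (fun i => x (ch i)) hne
  have hex : ((badSet x y r w).erase a |>.erase b).Nonempty := by
    rw [← Finset.card_pos]
    have h1 := Finset.pred_card_le_card_erase (s := badSet x y r w) (a := a)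
    have h2 := Finset.pred_card_le_card_erase (s := (badSet x y r w).erase a) (a := b)
    omega
  obtain ⟨m, hm⟩ := hex
  simp only [Finset.mem_erase] at hm
  obtain ⟨hmb, hma, hm⟩ := hm
  have hxa : x (ch a) ≤ x (ch m) := hamin m hm
  have hxb : x (ch m) ≤ x (ch b) := hbmax m hm
  -- y-coordinates are reversed
  have hya : y (ch m) < y (ch a) := by
    by_contra hcon
    push Not at hcon
    exact anti a ha m (Ne.symm hma) (ch m) List.suffix_rfl ⟨hxa, hcon⟩
  have hyb : y (ch b) < y (ch m) := by
    by_contra hcon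
    push Not at hcon
    exact anti m hm b hmb (ch b) List.suffix_rfl ⟨hxb, hcon⟩
  obtain ⟨-, z, hz, hzl, hzx, hzy⟩ := hmem m hm
  -- z is not in the hull of the siblings
  have hnot : ¬ (x z ≤ x (ch b) ∧ y z ≤ y (ch a)) := by
    rintro ⟨h1, h2⟩
    have hv : ¬ IsLeaf (⟨w, by omega⟩ : TreeVertex k) := by
      simp only [IsLeaf]; omega
    have hin := h {u | IsChild ⟨w, by omega⟩ u} (Or.inl ⟨⟨w, by omega⟩, hv, rfl⟩) z (ch m) (ch b)
      (ch m) (ch a) ⟨m, rfl⟩ ⟨b, rfl⟩ ⟨m, rfl⟩ ⟨a, rfl⟩ hzx h1 hzy h2
    obtain ⟨i, hi⟩ := hin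
    have h3 : z.1.length = w.length + 1 := by rw [hi]; simp
    have h4 : (ch m).1.length = w.length + 1 := by simp [ch]
    omega
  by_cases h1 : x z ≤ x (ch b)
  · have h2 : y (ch a) < y z := by
      by_contra hcon
      push Not at hcon
      exact hnot ⟨h1, hcon⟩
    exact anti a ha m (Ne.symm hma) z hz ⟨hxa.trans hzx, h2.le⟩
  · push Not at h1
    exact anti b hb m (Ne.symm hmb) z hz ⟨h1.le, hyb.le.trans hzy⟩

/-- The sign attached to a Boolean. -/
def sg (b : Bool) : ℝ := if b then 1 else -1

lemma HullProp.sg {k : ℕ} {x y : TreeVertex k → ℝ} (h : HullProp x y) (d : Bool × Bool) :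
    HullProp (fun v => sg d.1 * x v) (fun v => sg d.2 * y v) := by
  obtain ⟨a, b⟩ := d
  cases a <;> cases b <;>
    simp only [NoRectRealization.sg, if_true, one_mul, Bool.false_eq_true, if_false, neg_mul]
  · exact h.neg_left.neg_right
  · exact h.neg_left
  · exact h.neg_right
  · exact h

/-- `v` lies weakly in direction `d` from `u`. -/
def Dir {k : ℕ} (x y : TreeVertex k → ℝ) (d : Bool × Bool) (u v : TreeVertex k) : Prop :=
  NE (fun v => sg d.1 * x v) (fun v => sg d.2 * y v) u v

/-- `v` has a proper descendant in direction `d`. -/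
def HasDir {k : ℕ} (x y : TreeVertex k → ℝ) (d : Bool × Bool) (v : TreeVertex k) : Prop :=
  HasNE (fun v => sg d.1 * x v) (fun v => sg d.2 * y v) v

lemma exists_dir {k : ℕ} (x y : TreeVertex k → ℝ) (u v : TreeVertex k) :
    ∃ d, Dir x y d u v := by
  refine ⟨(decide (x u ≤ x v), decide (y u ≤ y v)), ?_⟩
  constructor
  · by_cases h : x u ≤ x v
    · simp [sg, h]
    · simp only [sg, h, decide_false, Bool.false_eq_true, if_false, neg_mul, one_mul]
      push Not at h
      linarith
  · by_cases h : y u ≤ y v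
    · simp [sg, h]
    · simp only [sg, h, decide_false, Bool.false_eq_true, if_false, neg_mul, one_mul]
      push Not at h
      linarith

/-- A vertex is good if for no proper ancestor `u` and no direction `d` it lies in direction `d`
from `u` and has a proper descendant in direction `d`. -/
def Good {k : ℕ} (x y : TreeVertex k → ℝ) (v : TreeVertex k) : Prop :=
  ∀ u : TreeVertex k, u.1 <:+ v.1 → u.1.length < v.1.length → ∀ d, Dir x y d u v → ¬ HasDir x y d v

lemma exists_good_child {k : ℕ} {x y : TreeVertex k → ℝ} (h : HullProp x y) (w : TreeVertex k)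
    (hw : 8 * (w.1.length + 1) < k) : ∃ v : TreeVertex k, IsChild w v ∧ Good x y v := by
  classical
  have hlen : w.1.length + 1 < k := by omega
  -- the union of all exceptional sets
  let anc : Fin (w.1.length + 1) → TreeVertex k := fun t =>
    ⟨w.1.drop t, lt_of_le_of_lt (by simp) w.2⟩
  let U : Finset (Fin k) := (Finset.univ : Finset (Fin (w.1.length + 1) × (Bool × Bool))).biUnion
    (fun p => badSet (fun v => sg p.2.1 * x v) (fun v => sg p.2.2 * y v) (anc p.1) w.1)
  have hU : U.card ≤ 8 * (w.1.length + 1) := by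
    refine (Finset.card_biUnion_le).trans ?_
    refine (Finset.sum_le_card_nsmul _ _ 2 ?_).trans ?_
    · rintro ⟨t, d⟩ -
      exact card_badSet_le (h.sg d) (List.drop_suffix _ _)
    · simp only [Finset.card_univ, Fintype.card_prod, Fintype.card_fin, Fintype.card_bool,
        smul_eq_mul]
      omega
  have hex : ∃ i : Fin k, i ∉ U := by
    by_contra hcon
    push Not at hcon
    have h1 : U = Finset.univ := Finset.eq_univ_iff_forall.2 hcon
    rw [h1] at hU
    simp at hU
    omega
  obtain ⟨i, hi⟩ := hex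
  refine ⟨⟨i :: w.1, by simpa using hlen⟩, ⟨i, rfl⟩, ?_⟩
  intro u hu hul d hd1 hd2
  simp only at hu hul
  have hu' : u.1 <:+ w.1 := by
    rcases List.suffix_cons_iff.1 hu with h1 | h1
    · rw [h1] at hul
      exact absurd hul (lt_irrefl _)
    · exact h1
  apply hi
  simp only [U, Finset.mem_biUnion, Finset.mem_univ, true_and]
  have hle := hu'.length_le
  refine ⟨(⟨w.1.length - u.1.length, by omega⟩, d), ?_⟩
  have hanc : anc ⟨w.1.length - u.1.length, by omega⟩ = u := by
    apply Subtype.ext
    simp only [anc]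
    exact (List.suffix_iff_eq_drop.1 hu').symm
  simp only [hanc, badSet, Finset.mem_filter, Finset.mem_univ, true_and]
  exact ⟨⟨i :: w.1, by simpa using hlen⟩, rfl, hd1, hd2⟩

/-- There is a vertex at level `n` all of whose suffixes of positive length are good. -/
lemma exists_good_path {k : ℕ} {x y : TreeVertex k → ℝ} (h : HullProp x y) (n : ℕ)
    (hn : 8 * n < k) : ∃ w : TreeVertex k, w.1.length = n ∧
      ∀ v : TreeVertex k, v.1 <:+ w.1 → 0 < v.1.length → Good x y v := by
  induction n with
  | zero =>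
    refine ⟨⟨[], by simpa using hn⟩, rfl, ?_⟩
    intro v hv hpos
    have := hv.length_le
    simp at this
    rw [this] at hpos
    simp at hpos
  | succ n ih =>
    obtain ⟨w, hw, hgood⟩ := ih (by omega)
    obtain ⟨v, ⟨i, hi⟩, hv⟩ := exists_good_child h w (by omega)
    refine ⟨v, by rw [hi]; simp [hw], ?_⟩
    intro u hu hpos
    rw [hi] at hu
    rcases List.suffix_cons_iff.1 hu with h1 | h1
    · have : u = v := Subtype.ext (h1.trans hi.symm)
      rw [this]; exact hv
    · exact hgood u h1 hpos

lemma not_hullProp {k : ℕ} (hk : 121 ≤ k) (x y : TreeVertex k → ℝ) : ¬ HullProp x y := by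
  classical
  intro h
  obtain ⟨w, hw, hgood⟩ := exists_good_path h 15 (by omega)
  -- the vertex at level `t` on the path
  let p : Fin 16 → TreeVertex k := fun t =>
    ⟨w.1.drop (15 - t), lt_of_le_of_lt (by simp) w.2⟩
  have hpl : ∀ t, (p t).1.length = t := by
    intro t
    simp only [p, List.length_drop, hw]
    omega
  have hps : ∀ t, (p t).1 <:+ w.1 := fun t => List.drop_suffix _ _
  have hpp : ∀ s t : Fin 16, s < t → (p s).1 <:+ (p t).1 := by
    intro s t hst
    exact List.suffix_of_suffix_length_le (hps s) (hps t) (by rw [hpl, hpl]; omega)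
  -- the set of the directions of the proper descendants
  let A : Fin 16 → Finset (Bool × Bool) := fun t => Finset.univ.filter (fun d => HasDir x y d (p t))
  have hAne : ∀ t, (A t).Nonempty := by
    intro t
    let z : TreeVertex k := ⟨⟨0, by omega⟩ :: (p t).1, by
      simp only [List.length_cons, hpl]; omega⟩
    obtain ⟨d, hd⟩ := exists_dir x y (p t) z
    refine ⟨d, ?_⟩
    simp only [A, Finset.mem_filter, Finset.mem_univ, true_and]
    exact ⟨z, List.suffix_cons _ _, by simp [z], hd⟩
  have hAinj : ∀ s t : Fin 16, s < t → A s ≠ A t := by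
    intro s t hst heq
    obtain ⟨d, hd⟩ := exists_dir x y (p s) (p t)
    have hst' : (s : ℕ) < t := hst
    have hlt : (p s).1.length < (p t).1.length := by rw [hpl, hpl]; exact hst'
    have h1 : d ∈ A s := by
      simp only [A, Finset.mem_filter, Finset.mem_univ, true_and]
      exact ⟨p t, hpp s t hst, hlt, hd⟩
    rw [heq] at h1
    simp only [A, Finset.mem_filter, Finset.mem_univ, true_and] at h1
    exact hgood (p t) (hps t) (by omega) (p s) (hpp s t hst) hlt d hd h1
  have hinj : Function.Injective A := by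
    intro s t hst
    rcases lt_trichotomy s t with h1 | h1 | h1
    · exact absurd hst (hAinj s t h1)
    · exact h1
    · exact absurd hst.symm (hAinj t s h1)
  -- 16 different nonempty subsets of a four-element set
  have hcard : (Finset.univ.image A).card = 16 := by
    rw [Finset.card_image_of_injective _ hinj]; simp
  have hsub : Finset.univ.image A ⊆ (Finset.univ : Finset (Finset (Bool × Bool))).erase ∅ := by
    intro B hB
    simp only [Finset.mem_image, Finset.mem_univ, true_and] at hB
    obtain ⟨t, rfl⟩ := hB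
    simp only [Finset.mem_erase, Finset.mem_univ, and_true]
    exact (hAne t).ne_empty
  have := Finset.card_le_card hsub
  rw [hcard, Finset.card_erase_of_mem (Finset.mem_univ _)] at this
  simp at this

/-- **Main result.** For every `k ≥ 121` the hypergraph `H_k` has no planar realization by
axis-parallel rectangles. -/
theorem result : ∀ k : ℕ, 121 ≤ k →
    ¬ ∃ (P : Set (ℝ × ℝ)) (S : Set (Set (ℝ × ℝ))),
      (∀ R ∈ S, IsAxisRect R) ∧ IsPlanarRealization (treeHypergraph k) P S := by
  rintro k hk ⟨P, S, hS, f, hf, rfl, hE⟩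
  exact not_hullProp hk _ _ (hullProp_of_realization hf hS hE)

end Pool.Agent.Results.MP_a176d3_co.NoRectRealization
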